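import Pool.Agent.Helper34.FF.Goals1

/-! Packet `StmtSub` of MP_7cb822_co. -/

set_option autoImplicit false

namespace Pool.Agent.Helper77.FF

open Finset Pool.Agent.Helper34.FF
open scoped symmDiff Classical

variable {V F : Type} [Fintype V] [Fintype F] (T : Tri V F)

/-- the number of faces of `S` at the edge `e` -/
noncomputable def num (e : Sym2 V) (S : Finset F) : ℕ := (S.filter fun f => T.on e f).card

theorem num_univ {e : Sym2 V} (he : e ∈ T.G.edgeSet) : num T e univ = 2 := by
  induction e using Sym2.inductionOn with
  | hf a b =>
    rw [← T.two a b he, num]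
    congr 1
    ext f
    simp [Tri.on]

theorem num_union {e : Sym2 V} {S S' : Finset F} (h : Disjoint S S') :
    num T e (S ∪ S') = num T e S + num T e S' := by
  unfold num
  rw [filter_union, card_union_of_disjoint]
  exact disjoint_filter_filter h

theorem card_bdry (p : Sym2 V → Prop) (S : Finset F) : ((T.bdry S).filter p).card =
    ∑ e ∈ univ.filter (fun e => e ∈ T.G.edgeSet ∧ p e), if num T e S = 1 then 1 else 0 := by
  rw [← card_filter, Tri.bdry, filter_filter, filter_filter]
  congr 1
  ext e
  simp only [mem_filter, mem_univ, true_and, num]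
  tauto

theorem card_btw (p : Sym2 V → Prop) (A B : Finset F) : ((T.btw A B).filter p).card =
    ∑ e ∈ univ.filter (fun e => e ∈ T.G.edgeSet ∧ p e),
      if num T e A = 1 ∧ num T e B = 1 then 1 else 0 := by
  rw [← card_filter, Tri.btw, filter_filter, filter_filter]
  congr 1
  ext e
  simp only [mem_filter, mem_univ, true_and, num]
  tauto

theorem pf_StmtSub : StmtSub := by
  intro V F _ _ T A B p
  have key : ∀ e ∈ T.G.edgeSet, ∃ a b c d : ℕ, a + b + c + d = 2 ∧ num T e (A ∩ B) = a ∧
      num T e (A \ B) = b ∧ num T e (B \ A) = c ∧ num T e (A ∪ B)ᶜ = d ∧ num T e A = a + b ∧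
      num T e B = a + c ∧ num T e (A ∪ B) = a + b + c := by
    intro e he
    refine ⟨_, _, _, _, ?_, rfl, rfl, rfl, rfl, ?_, ?_, ?_⟩
    · rw [← num_univ T he]
      have h1 : (univ : Finset F) = (((A ∩ B) ∪ (A \ B)) ∪ (B \ A)) ∪ (A ∪ B)ᶜ := by
        ext f
        simp only [mem_univ, mem_union, mem_inter, mem_sdiff, mem_compl, true_iff]
        tauto
      conv_rhs => rw [h1]
      rw [num_union, num_union, num_union]
      · rw [disjoint_left]
        intro f hf hf'
        simp only [mem_inter, mem_sdiff] at hf hf'
        tauto
      · rw [disjoint_left]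
        intro f hf hf'
        simp only [mem_union, mem_inter, mem_sdiff] at hf hf'
        tauto
      · rw [disjoint_left]
        intro f hf hf'
        simp only [mem_union, mem_inter, mem_sdiff, mem_compl] at hf hf'
        tauto
    · rw [← num_union]
      · congr 1
        ext f
        simp only [mem_union, mem_inter, mem_sdiff]
        tauto
      · rw [disjoint_left]
        intro f hf hf'
        simp only [mem_inter, mem_sdiff] at hf hf'
        tauto
    · rw [← num_union]
      · congr 1
        ext f
        simp only [mem_union, mem_inter, mem_sdiff]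
        tauto
      · rw [disjoint_left]
        intro f hf hf'
        simp only [mem_inter, mem_sdiff] at hf hf'
        tauto
    · rw [← num_union, ← num_union]
      · congr 1
        ext f
        simp only [mem_union, mem_inter, mem_sdiff]
        tauto
      · rw [disjoint_left]
        intro f hf hf'
        simp only [mem_union, mem_inter, mem_sdiff] at hf hf'
        tauto
      · rw [disjoint_left]
        intro f hf hf'
        simp only [mem_inter, mem_sdiff] at hf hf'
        tauto
  constructor
  · rw [card_bdry, card_bdry, card_bdry, card_bdry, card_btw, mul_sum, ← sum_add_distrib,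
      ← sum_add_distrib, ← sum_add_distrib]
    refine sum_congr rfl fun e he => ?_
    simp only [mem_filter, mem_univ, true_and] at he
    obtain ⟨a, b, c, d, h, h1, h2, h3, h4, h5, h6, h7⟩ := key e he.1
    rw [h1, h2, h3, h5, h6, h7]
    split_ifs <;> omega
  · rw [card_bdry, card_bdry, card_bdry, card_bdry, card_btw, mul_sum, ← sum_add_distrib,
      ← sum_add_distrib, ← sum_add_distrib]
    refine sum_congr rfl fun e he => ?_
    simp only [mem_filter, mem_univ, true_and] at he
    obtain ⟨a, b, c, d, h, h1, h2, h3, h4, h5, h6, h7⟩ := key e he.1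
    rw [h1, h2, h3, h4, h5, h6]
    split_ifs <;> omega

end Pool.Agent.Helper77.FF
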