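import Pool.Agent.Helper1.FF2.Goals2
import Pool.Agent.Helper90.FF.StmtPar

/-! Packet `StmtLca` of MP_7cb822_co. -/

set_option autoImplicit false

namespace Pool.Agent.Helper77.FF

open Finset Pool.Agent.Helper34.FF Pool.Agent.Helper1.FF2
open scoped symmDiff Classical

theorem edge_eq {V : Type} {H : SimpleGraph V} {u : V} {P : V → ℕ → V}
    (hP : IsTree H u P) {x y : V} (hx : H.Reachable u x) (hy : H.Reachable u y) {i j : ℕ}
    (hi : i < H.dist u x) (hj : j < H.dist u y)
    (h : s(P x i, P x (i + 1)) = s(P y j, P y (j + 1))) :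
    i = j ∧ P x (i + 1) = P y (i + 1) := by
  have d1 := hP.depth x hx i hi.le
  have d2 := hP.depth x hx (i + 1) hi
  have d3 := hP.depth y hy j hj.le
  have d4 := hP.depth y hy (j + 1) hj
  rcases Sym2.eq_iff.1 h with ⟨h1, h2⟩ | ⟨h1, h2⟩
  · rw [h1, d3] at d1
    subst d1
    exact ⟨rfl, h2⟩
  · rw [h1, d4] at d1
    rw [h2, d3] at d2
    omega

theorem xor_ends {V : Type} (w x y v : V) :
    ((w ≠ x ∧ (v = w ∨ v = x)) ↔ ¬ (w ≠ y ∧ (v = w ∨ v = y))) ↔
      (x ≠ y ∧ (v = x ∨ v = y)) := by
  by_cases h1 : x = y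
  · subst h1
    have : ∀ p : Prop, ¬ (p ↔ ¬ p) := by intro p; tauto
    simp only [ne_eq, not_true_eq_false, false_and, iff_false]
    exact this _
  · by_cases h2 : w = x
    · subst h2
      simp only [ne_eq, not_true_eq_false, false_and, false_iff, not_not]
    · by_cases h3 : w = y
      · subst h3
        have h4 : ¬ x = w := fun h => h2 h.symm
        simp only [ne_eq, not_true_eq_false, false_and, not_false_eq_true, iff_true, h2, h4,
          true_and]
        exact or_comm
      · by_cases h4 : v = w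
        · subst h4
          have h5 : ¬ x = v := fun h => h2 h.symm
          simp [h1, h2, h3]
        · by_cases h5 : v = x
          · subst h5
            simp [h1, h2, h3]
            exact h4
          · simp [h1, h2, h3, h4, h5]

theorem pf_StmtLca : StmtLca := by
  intro V _ H u P hP x y hx hy
  set dx := H.dist u x with hdx
  set dy := H.dist u y with hdy
  obtain ⟨x0, x1, xadj⟩ := hP.walk x hx
  obtain ⟨y0, y1, yadj⟩ := hP.walk y hy
  rw [← hdx] at x1 xadj
  rw [← hdy] at y1 yadj
  set a := Nat.findGreatest (fun i => P x i = P y i) (min dx dy) with ha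
  have hale : a ≤ min dx dy := Nat.findGreatest_le _
  have hax : a ≤ dx := hale.trans (min_le_left _ _)
  have hay : a ≤ dy := hale.trans (min_le_right _ _)
  have hPa : P x a = P y a := by
    have h := Nat.findGreatest_spec (P := fun i => P x i = P y i) (m := 0) (n := min dx dy)
      (Nat.zero_le _) (by rw [x0, y0])
    exact h
  have hiff : ∀ i, i ≤ dx → i ≤ dy → (P x i = P y i ↔ i ≤ a) := by
    intro i hi hi'
    constructor
    · intro h
      exact Nat.le_findGreatest (le_min hi hi') h
    · intro h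
      exact hP.coh x y hx hy a hax hay hPa i h
  have key : ∀ {i j : ℕ}, i < dx → j < dy → s(P x i, P x (i + 1)) = s(P y j, P y (j + 1)) →
      i = j ∧ i + 1 ≤ a := by
    intro i j hi hj h
    obtain ⟨h1, h2⟩ := edge_eq hP hx hy hi hj h
    subst h1
    exact ⟨rfl, (hiff (i + 1) hi hj).1 h2⟩
  -- the tails
  set TX := wE (dx - a) (fun t => P x (a + t)) with hTX
  set TY := wE (dy - a) (fun t => P y (a + t)) with hTY
  have memTX : ∀ e, e ∈ TX ↔ ∃ i, a ≤ i ∧ i < dx ∧ e = s(P x i, P x (i + 1)) := by
    intro e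
    simp only [hTX, wE, mem_image, mem_range]
    constructor
    · rintro ⟨t, ht, rfl⟩
      exact ⟨a + t, by omega, by omega, by rw [add_assoc]⟩
    · rintro ⟨i, h1, h2, rfl⟩
      refine ⟨i - a, by omega, ?_⟩
      have e1 : a + (i - a) = i := by omega
      have e2 : a + (i - a + 1) = i + 1 := by omega
      rw [e1, e2]
  have memTY : ∀ e, e ∈ TY ↔ ∃ i, a ≤ i ∧ i < dy ∧ e = s(P y i, P y (i + 1)) := by
    intro e
    simp only [hTY, wE, mem_image, mem_range]
    constructor
    · rintro ⟨t, ht, rfl⟩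
      exact ⟨a + t, by omega, by omega, by rw [add_assoc]⟩
    · rintro ⟨i, h1, h2, rfl⟩
      refine ⟨i - a, by omega, ?_⟩
      have e1 : a + (i - a) = i := by omega
      have e2 : a + (i - a + 1) = i + 1 := by omega
      rw [e1, e2]
  have memX : ∀ e, e ∈ tE H u P x ↔ ∃ i, i < dx ∧ e = s(P x i, P x (i + 1)) := by
    intro e
    simp only [tE, wE, mem_image, mem_range, ← hdx]
    exact ⟨fun ⟨i, h, h'⟩ => ⟨i, h, h'.symm⟩, fun ⟨i, h, h'⟩ => ⟨i, h, h'.symm⟩⟩
  have memY : ∀ e, e ∈ tE H u P y ↔ ∃ i, i < dy ∧ e = s(P y i, P y (i + 1)) := by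
    intro e
    simp only [tE, wE, mem_image, mem_range, ← hdy]
    exact ⟨fun ⟨i, h, h'⟩ => ⟨i, h, h'.symm⟩, fun ⟨i, h, h'⟩ => ⟨i, h, h'.symm⟩⟩
  have hdisj : Disjoint TX TY := by
    rw [disjoint_left]
    intro e he he'
    obtain ⟨i, h1, h2, h3⟩ := (memTX e).1 he
    obtain ⟨j, h4, h5, h6⟩ := (memTY e).1 he'
    have := key h2 h5 (h3.symm.trans h6)
    omega
  have hsymm : tE H u P x ∆ tE H u P y = TX ∪ TY := by
    ext e
    rw [mem_symmDiff, mem_union]
    constructor
    · rintro (⟨h1, h2⟩ | ⟨h1, h2⟩)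
      · left
        obtain ⟨i, hi, he⟩ := (memX e).1 h1
        rw [memTX]
        refine ⟨i, ?_, hi, he⟩
        by_contra hcon
        push Not at hcon
        apply h2
        rw [memY]
        refine ⟨i, by omega, ?_⟩
        rw [he, (hiff i hi.le (by omega)).2 (by omega),
          (hiff (i + 1) (by omega) (by omega)).2 (by omega)]
      · right
        obtain ⟨i, hi, he⟩ := (memY e).1 h1
        rw [memTY]
        refine ⟨i, ?_, hi, he⟩
        by_contra hcon
        push Not at hcon
        apply h2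
        rw [memX]
        refine ⟨i, by omega, ?_⟩
        rw [he, (hiff i (by omega) hi.le).2 (by omega),
          (hiff (i + 1) (by omega) (by omega)).2 (by omega)]
    · rintro (h | h)
      · obtain ⟨i, h1, h2, h3⟩ := (memTX e).1 h
        left
        refine ⟨(memX e).2 ⟨i, h2, h3⟩, ?_⟩
        intro h4
        obtain ⟨j, h5, h6⟩ := (memY e).1 h4
        have := key h2 h5 (h3.symm.trans h6)
        omega
      · obtain ⟨i, h1, h2, h3⟩ := (memTY e).1 h
        right
        refine ⟨(memY e).2 ⟨i, h2, h3⟩, ?_⟩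
        intro h4
        obtain ⟨j, h5, h6⟩ := (memX e).1 h4
        have := key h5 h2 (h6.symm.trans h3)
        omega
  obtain ⟨-, hpar⟩ := Pool.Agent.Helper90.FF.pf_StmtPar V H
  obtain ⟨cX, pX⟩ := hpar (dx - a) (fun t => P x (a + t)) (P x a) x
    ⟨rfl, by show P x (a + (dx - a)) = x; rw [Nat.add_sub_cancel' hax, x1], fun i hi => by
      have := xadj (a + i) (by omega)
      rwa [add_assoc] at this⟩
    (by
      intro i hi j hj h
      have d1 := hP.depth x hx (a + i) (by omega)
      have d2 := hP.depth x hx (a + j) (by omega)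
      have h' : P x (a + i) = P x (a + j) := h
      rw [h', d2] at d1
      omega)
  obtain ⟨cY, pY⟩ := hpar (dy - a) (fun t => P y (a + t)) (P x a) y
    ⟨by rw [hPa]; rfl, by show P y (a + (dy - a)) = y; rw [Nat.add_sub_cancel' hay, y1], fun i hi => by
      have := yadj (a + i) (by omega)
      rwa [add_assoc] at this⟩
    (by
      intro i hi j hj h
      have d1 := hP.depth y hy (a + i) (by omega)
      have d2 := hP.depth y hy (a + j) (by omega)
      have h' : P y (a + i) = P y (a + j) := h
      rw [h', d2] at d1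
      omega)
  refine ⟨a, hax, hay, hiff, hsymm, ?_, fun v => ?_⟩
  · rw [hsymm, card_union_of_disjoint hdisj, cX, cY]
    omega
  · rw [hsymm, filter_union, card_union_of_disjoint (disjoint_filter_filter hdisj),
      Nat.odd_add, ← Nat.not_odd_iff_even, pX v, pY v]
    exact xor_ends (P x a) x y v

end Pool.Agent.Helper77.FF
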